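import Pool.Agent.W_2cf66e_h65.KFin

/-!
# MP_2cf66e_nt: extended periods are powers of pi times constant term series
-/

set_option autoImplicit false

open MeasureTheory

namespace Pool.Agent.Results.MP_2cf66e_nt.ConstantTerms

/-- A real number `x` satisfies `π^k x ∈ 𝒫` for some `k ≥ 0` if and only if it is an integral
power of `π` times an absolutely convergent series `∑ Λ(A T^m)`, where `A`, `T` are polynomials
with rational coefficients, `0 ≤ T ≤ 1` on the cube `[-1,1]^M`, and `Λ(p)` is the constant term of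
`p((z_1+1/z_1)/2, ..., (z_M+1/z_M)/2)`. -/
theorem result (x : ℝ) : (∃ k : ℕ, Pool.Agent.CVol.IsPeriod (Real.pi ^ k * x)) ↔
    ∃ (e : ℤ) (M : ℕ) (A T : MvPolynomial (Fin M) ℚ),
      (∀ c : Fin M → ℝ, (∀ i, -1 ≤ c i ∧ c i ≤ 1) →
        0 ≤ MvPolynomial.aeval c T ∧ MvPolynomial.aeval c T ≤ 1) ∧
      (Summable fun m : ℕ => ∫ θ in Pool.Agent.CVol.ucube (Fin M),
        |MvPolynomial.aeval (Pool.Agent.CVol.cs θ) A| *
          (MvPolynomial.aeval (Pool.Agent.CVol.cs θ) T) ^ m) ∧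
      x = Real.pi ^ e * ∑' m : ℕ, (Pool.Agent.CVol.Lam (A * T ^ m) : ℝ) :=
  Pool.Agent.CVol.ext_period_iff x

end Pool.Agent.Results.MP_2cf66e_nt.ConstantTerms
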