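import Pool.Agent.W_2cf66e_h23.LuC4
import Pool.Agent.W_2cf66e_h23.MainE

/-!
# MP_2cf66e_nt: volumes in `ℝ^m` are `π^(m-1)` times constant term series in `m` variables

For `x = Real.exp 1` the predicate `IsPeriod x` is exactly the frozen statement of the problem.
-/

set_option autoImplicit false

open MeasureTheory

namespace Pool.Agent.Results.MP_2cf66e_nt.ConstantTerms

/-- `y` is the sum of a series of constant terms in `M` variables: `y = ∑ Λ(A T^k)`, where `A` and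
`T` are polynomials with rational coefficients, `0 ≤ T ≤ 1` on the cube `[-1,1]^M`, and `Λ(p)` is
the constant term of `p((z_1+1/z_1)/2, ..., (z_M+1/z_M)/2)`, that is, the mean value of
`p(cos(2π θ_1), ..., cos(2π θ_M))`; the series of the mean values of `|A| T^k` converges. -/
def IsSeries (M : ℕ) (y : ℝ) : Prop :=
  ∃ A T : MvPolynomial (Fin M) ℚ,
    (∀ c : Fin M → ℝ, (∀ i, -1 ≤ c i ∧ c i ≤ 1) →
      0 ≤ MvPolynomial.aeval c T ∧ MvPolynomial.aeval c T ≤ (1 : ℝ)) ∧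
    (Summable fun k : ℕ => ∫ θ in Pool.Agent.CVol.ucube (Fin M),
      |MvPolynomial.aeval (Pool.Agent.CVol.cs θ) A| *
        (MvPolynomial.aeval (Pool.Agent.CVol.cs θ) T : ℝ) ^ k) ∧
    y = ∑' k : ℕ, (Pool.Agent.CVol.Lam (A * T ^ k) : ℝ)

/-- Let `x` be a real number. If `x ≥ 0`, then for every `m = n + 1 ≥ 1`: `x` is the volume of a
semialgebraic subset of `ℝ^m` (a finite Boolean combination of sets `{p > 0}`, where `p` is a
polynomial with rational coefficients) if and only if `x` is `π^(m-1)` times a series of constant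
terms in `m` variables. Moreover `x` (of any sign) is a period if and only if, for some `m ≥ 1`,
it is `π^(m-1)` times a series of constant terms in `m` variables. -/
theorem result (x : ℝ) :
    (0 ≤ x → ∀ n : ℕ,
      ((∃ S : Set (Fin (n + 1) → ℝ), Pool.Agent.CVol.IsSA S ∧ volume S = ENNReal.ofReal x) ↔
        ∃ y : ℝ, IsSeries (n + 1) y ∧ x = Real.pi ^ n * y)) ∧
    (Pool.Agent.CVol.IsPeriod x ↔
      ∃ (n : ℕ) (y : ℝ), IsSeries (n + 1) y ∧ x = Real.pi ^ n * y) := by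
  have h : ∀ n : ℕ, Pool.Agent.WSP.RI (n + 1) x ↔
      ∃ y : ℝ, IsSeries (n + 1) y ∧ x = Real.pi ^ n * y := by
    intro n
    rw [Pool.Agent.WSP.ri_ct]
    constructor
    · rintro ⟨A, T, h1, h2, h3⟩
      exact ⟨_, ⟨A, T, h1, h2, rfl⟩, h3⟩
    · rintro ⟨y, ⟨A, T, h1, h2, h3⟩, h4⟩
      exact ⟨A, T, h1, h2, by rw [h4, h3]⟩
  refine ⟨fun hx n => ?_, ?_⟩
  · rw [← h n, Pool.Agent.WSP.ri_iff hx]
    constructor
    · rintro ⟨S, h1, h3⟩
      obtain ⟨B, h4, h5, h6⟩ := Pool.Agent.WSP.fin_single S h1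
        (by rw [h3]; exact ENNReal.ofReal_ne_top)
      exact ⟨B, h4, h5, by rw [h6, h3]⟩
    · rintro ⟨S, h1, -, h3⟩
      exact ⟨S, h1, h3⟩
  · constructor
    · intro h1
      obtain ⟨n, P, Q, -, hi, hv⟩ := Pool.Agent.WSP.fwd h1
      exact ⟨n, (h n).1 ⟨P, Q, hi, hv⟩⟩
    · rintro ⟨n, h1⟩
      obtain ⟨P, Q, hi, hv⟩ := (h n).2 h1
      have h2 := Pool.Agent.WSP.back P Q hi
      rw [hv, ← mul_assoc, inv_mul_cancel₀ Real.pi_pos.ne', one_mul] at h2
      exact h2

end Pool.Agent.Results.MP_2cf66e_nt.ConstantTerms
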