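import Pool.Agent.W_2cf66e_h65.Final

/-!
# MP_2cf66e_nt: positive periods are the volumes of unit balls of semialgebraic norms

For `x = Real.exp 1` the left side is exactly the frozen statement of the problem.
-/

set_option autoImplicit false

open MeasureTheory

namespace Pool.Agent.Results.MP_2cf66e_nt.ConvexVolumes

/-- A positive real number is a period if and only if it is the volume of the unit ball of a norm
on some `ℝ^N`, invariant under sign changes of the coordinates, whose unit ball is semialgebraic
over `ℚ`. -/
theorem result (x : ℝ) (hx : 0 < x) : Pool.Agent.CVol.IsPeriod x ↔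
    ∃ (N : ℕ) (p : Seminorm ℝ (Fin N → ℝ)), (∀ z, p z = 0 → z = 0) ∧
      (∀ z ε : Fin N → ℝ, (∀ i, ε i = 1 ∨ ε i = -1) → p (fun i => ε i * z i) = p z) ∧
      Pool.Agent.CVol.IsSA {z | p z ≤ 1} ∧ volume {z | p z ≤ 1} = ENNReal.ofReal x :=
  Pool.Agent.CVol.period_iff_norm x hx

end Pool.Agent.Results.MP_2cf66e_nt.ConvexVolumes
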