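import Pool.Agent.W_2cf66e_h23.MainE
import Pool.Agent.W_2cf66e_P.LpU
import Pool.Agent.W_2cf66e_P.UwP
import Pool.Agent.W_2cf66e_PS.LtJ
import Pool.Agent.W_2cf66e_E1.LeH

/-!
# MP_2cf66e_nt: integrals of rational functions over `ℝ^m` and volumes in `ℝ^m`

For `x = Real.exp 1` the predicate `IsPeriod x` is exactly the frozen statement of the problem.
-/

set_option autoImplicit false

open MeasureTheory

namespace Pool.Agent.Results.MP_2cf66e_nt.EveryDimension

/-- `c` is the absolutely convergent integral of `P / Q` over the whole space `ℝ^m`; `P` and `Q`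
are polynomials with coefficients in `R` (below `R` is `ℚ` or `ℤ`), and `P / Q` is `0` where
`Q = 0`. -/
def HasIntegral {R : Type} [CommSemiring R] [Algebra R ℝ] {m : ℕ}
    (P Q : MvPolynomial (Fin m) R) (c : ℝ) : Prop :=
  Integrable (fun z : Fin m → ℝ => (MvPolynomial.aeval z P : ℝ) / MvPolynomial.aeval z Q) volume ∧
  (∫ z : Fin m → ℝ, (MvPolynomial.aeval z P : ℝ) / MvPolynomial.aeval z Q) = c

/-- Let `x` be a real number. If `x > 0`, then `x` is a period if and only if, for some `m ≥ 1`,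
`π x` is the absolutely convergent integral over the whole space `ℝ^m` of `1 / Q` with ONE integer
polynomial `Q` which is positive everywhere on `ℝ^m`; and for every `m = n + 1 ≥ 1` the following
are equivalent:
* `π x` is the absolutely convergent integral over the whole space `ℝ^m` of a rational function
  `P / Q` with rational coefficients;
* `π x` is the integral over `ℝ^m` of `A / B` with integer polynomials such that `0 < A < B`
  everywhere on `ℝ^m`;
* `π^2 x` is the integral over `ℝ^(m+1)` of the reciprocal of ONE integer polynomial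
  `GU u w = (1 + u^2 b^2) ((1 - w b^2)^2 + b^2)`, where `b` is the first coordinate and `u`, `w` are
  integer polynomials in the other `m` coordinates with `1 ≤ u ≤ w` everywhere on `ℝ^m`;
* `x` is the volume of a compact semialgebraic subset of `ℝ^m` (with the same `m`);
* `x` is the volume of a semialgebraic subset of `ℝ^m`.

Here `IsSA S` means that `S` is a finite Boolean combination of sets `{p > 0}`, where `p` is a
polynomial with rational coefficients.

Moreover `x` (of any sign) is a period if and only if `π x` is the integral of a rational function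
`P / Q` over `ℝ^m` for some `m ≥ 1`, and also if and only if this holds with integer coefficients,
`|P| < Q` everywhere on `ℝ^m` and, if `x > 0`, with `0 < P` everywhere on `ℝ^m`. -/
theorem result (x : ℝ) :
    (0 < x → (Pool.Agent.CVol.IsPeriod x ↔
        ∃ (n : ℕ) (Q : MvPolynomial (Fin (n + 1)) ℤ),
          (∀ z : Fin (n + 1) → ℝ, 0 < (MvPolynomial.aeval z Q : ℝ)) ∧
          HasIntegral 1 Q (Real.pi * x)) ∧
      ∀ n : ℕ, List.TFAE [
      ∃ P Q : MvPolynomial (Fin (n + 1)) ℚ, HasIntegral P Q (Real.pi * x),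
      ∃ A B : MvPolynomial (Fin (n + 1)) ℤ,
        (∀ z : Fin (n + 1) → ℝ, 0 < (MvPolynomial.aeval z A : ℝ) ∧
          (MvPolynomial.aeval z A : ℝ) < MvPolynomial.aeval z B) ∧
        HasIntegral A B (Real.pi * x),
      ∃ u w : MvPolynomial (Fin (n + 1)) ℤ,
        (∀ z : Fin (n + 1) → ℝ, 1 ≤ (MvPolynomial.aeval z u : ℝ) ∧
          (MvPolynomial.aeval z u : ℝ) ≤ MvPolynomial.aeval z w) ∧
        HasIntegral 1 (Pool.Agent.R59.GU u w) (Real.pi ^ 2 * x),
      ∃ S : Set (Fin (n + 1) → ℝ), Pool.Agent.CVol.IsSA S ∧ IsCompact S ∧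
        volume S = ENNReal.ofReal x,
      ∃ S : Set (Fin (n + 1) → ℝ), Pool.Agent.CVol.IsSA S ∧ volume S = ENNReal.ofReal x]) ∧
    List.TFAE [
      Pool.Agent.CVol.IsPeriod x,
      ∃ (n : ℕ) (P Q : MvPolynomial (Fin (n + 1)) ℤ),
        (∀ z : Fin (n + 1) → ℝ, |(MvPolynomial.aeval z P : ℝ)| < MvPolynomial.aeval z Q ∧
          (0 < x → 0 < (MvPolynomial.aeval z P : ℝ))) ∧
        HasIntegral P Q (Real.pi * x),
      ∃ (n : ℕ) (P Q : MvPolynomial (Fin (n + 1)) ℚ), HasIntegral P Q (Real.pi * x)] := by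
  refine ⟨fun hx => ⟨Pool.Agent.E1.e1_main hx, fun n => ?_⟩, ?_⟩
  · tfae_have 1 → 5 := by
      intro h
      obtain ⟨S, h1, -, h3⟩ := (Pool.Agent.WSP.ri_iff hx.le).1 h
      exact ⟨S, h1, h3⟩
    tfae_have 5 → 2 := by
      rintro ⟨S, h1, h3⟩
      obtain ⟨A, B, h4, h5, h6⟩ :=
        Pool.Agent.T59.ps_form hx (Pool.Agent.WSP.vol_pi hx.le S h1 h3)
      refine ⟨A, B, fun z => ?_, h5, h6⟩
      obtain ⟨h7, h8⟩ := h4 z
      exact ⟨by linarith, by linarith⟩
    tfae_have 2 → 1 := by
      rintro ⟨A, B, -, hi, hv⟩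
      refine ⟨MvPolynomial.map (algebraMap ℤ ℚ) A, MvPolynomial.map (algebraMap ℤ ℚ) B, ?_, ?_⟩
      · simpa only [Pool.Agent.R59.map_int61] using hi
      · simpa only [Pool.Agent.R59.map_int61] using hv
    tfae_have 5 → 3 := by
      rintro ⟨S, h1, h3⟩
      obtain ⟨A, B, h4, h5, h6⟩ :=
        Pool.Agent.T59.ps_form hx (Pool.Agent.WSP.vol_pi hx.le S h1 h3)
      exact Pool.Agent.R59.uw_of_ps A B h4 h5 h6
    tfae_have 3 → 1 := by
      rintro ⟨u, w, h1, hi, hv⟩
      exact Pool.Agent.R59.uw_back u w h1 hi hv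
    tfae_have 5 → 4 := by
      rintro ⟨S, h1, h3⟩
      obtain ⟨B, h4, h5, h6⟩ := Pool.Agent.WSP.fin_single S h1
        (by rw [h3]; exact ENNReal.ofReal_ne_top)
      obtain ⟨K, h7, h8, h9⟩ := Pool.Agent.WSP.sa_compact h4 h5
      exact ⟨K, h7, h8, by rw [h9, h6, h3]⟩
    tfae_have 4 → 5 := by
      rintro ⟨S, h1, -, h3⟩
      exact ⟨S, h1, h3⟩
    tfae_finish
  · tfae_have 1 → 2 := fun h => Pool.Agent.R59.per_abs x h
    tfae_have 1 → 3 := by
      intro h
      obtain ⟨n, P, Q, -, hi, hv⟩ := Pool.Agent.WSP.fwd h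
      exact ⟨n, P, Q, hi, hv⟩
    tfae_have 2 → 1 := by
      rintro ⟨n, P, Q, -, hi, hv⟩
      exact Pool.Agent.R59.abs_per P Q hi hv
    tfae_have 3 → 1 := by
      rintro ⟨n, P, Q, hi, hv⟩
      have h := Pool.Agent.WSP.back P Q hi
      rw [hv, ← mul_assoc, inv_mul_cancel₀ Real.pi_pos.ne', one_mul] at h
      exact h
    tfae_finish

end Pool.Agent.Results.MP_2cf66e_nt.EveryDimension
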