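import Pool.Agent.W_2cf66e_h23.MainE

/-!
# MP_2cf66e_nt: integrals of rational functions over `ℝ^m` and volumes in `ℝ^m`

For `x = Real.exp 1` the predicate `IsPeriod x` is exactly the frozen statement of the problem.
-/

set_option autoImplicit false

open MeasureTheory

namespace Pool.Agent.Results.MP_2cf66e_nt.EveryDimension

/-- Let `x` be a real number. If `x ≥ 0`, then for every `m = n + 1 ≥ 1` the following are
equivalent:
* `π x` is the absolutely convergent integral over the whole space `ℝ^m` of a rational function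
  `P / Q` with rational coefficients;
* `x` is the volume of a compact semialgebraic subset of `ℝ^m` (with the same `m`);
* `x` is the volume of a semialgebraic subset of `ℝ^m`.

Here `IsSA S` means that `S` is a finite Boolean combination of sets `{p > 0}`, where `p` is a
polynomial with rational coefficients.

Moreover `x` (of any sign) is a period if and only if `π x` is such an integral for some `m`, and
also if and only if it is such an integral for some `m` with `Q > 0` on `ℝ^m`. -/
theorem result (x : ℝ) :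
    (0 ≤ x → ∀ n : ℕ, List.TFAE [
      ∃ P Q : MvPolynomial (Fin (n + 1)) ℚ,
        Integrable (fun z : Fin (n + 1) → ℝ =>
          (MvPolynomial.aeval z P : ℝ) / MvPolynomial.aeval z Q) volume ∧
        (∫ z : Fin (n + 1) → ℝ, (MvPolynomial.aeval z P : ℝ) / MvPolynomial.aeval z Q) =
          Real.pi * x,
      ∃ S : Set (Fin (n + 1) → ℝ), Pool.Agent.CVol.IsSA S ∧ IsCompact S ∧
        volume S = ENNReal.ofReal x,
      ∃ S : Set (Fin (n + 1) → ℝ), Pool.Agent.CVol.IsSA S ∧ volume S = ENNReal.ofReal x]) ∧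
    List.TFAE [
      Pool.Agent.CVol.IsPeriod x,
      ∃ (n : ℕ) (P Q : MvPolynomial (Fin (n + 1)) ℚ),
        (∀ z : Fin (n + 1) → ℝ, (0 : ℝ) < MvPolynomial.aeval z Q) ∧
        Integrable (fun z : Fin (n + 1) → ℝ =>
          (MvPolynomial.aeval z P : ℝ) / MvPolynomial.aeval z Q) volume ∧
        (∫ z : Fin (n + 1) → ℝ, (MvPolynomial.aeval z P : ℝ) / MvPolynomial.aeval z Q) =
          Real.pi * x,
      ∃ (n : ℕ) (P Q : MvPolynomial (Fin (n + 1)) ℚ),
        Integrable (fun z : Fin (n + 1) → ℝ =>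
          (MvPolynomial.aeval z P : ℝ) / MvPolynomial.aeval z Q) volume ∧
        (∫ z : Fin (n + 1) → ℝ, (MvPolynomial.aeval z P : ℝ) / MvPolynomial.aeval z Q) =
          Real.pi * x] := by
  refine ⟨fun hx n => ?_, ?_⟩
  · tfae_have 1 → 3 := by
      intro h
      obtain ⟨S, h1, -, h3⟩ := (Pool.Agent.WSP.ri_iff hx).1 h
      exact ⟨S, h1, h3⟩
    tfae_have 3 → 2 := by
      rintro ⟨S, h1, h3⟩
      obtain ⟨B, h4, h5, h6⟩ := Pool.Agent.WSP.fin_single S h1
        (by rw [h3]; exact ENNReal.ofReal_ne_top)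
      obtain ⟨K, h7, h8, h9⟩ := Pool.Agent.WSP.sa_compact h4 h5
      exact ⟨K, h7, h8, by rw [h9, h6, h3]⟩
    tfae_have 2 → 1 := by
      rintro ⟨S, h1, h2, h3⟩
      exact (Pool.Agent.WSP.ri_iff hx).2 ⟨S, h1, h2.isBounded, h3⟩
    tfae_finish
  · tfae_have 1 → 2 := fun h => Pool.Agent.WSP.fwd h
    tfae_have 2 → 3 := by
      rintro ⟨n, P, Q, -, hi, hv⟩
      exact ⟨n, P, Q, hi, hv⟩
    tfae_have 3 → 1 := by
      rintro ⟨n, P, Q, hi, hv⟩
      have h := Pool.Agent.WSP.back P Q hi
      rw [hv, ← mul_assoc, inv_mul_cancel₀ Real.pi_pos.ne', one_mul] at h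
      exact h
    tfae_finish

end Pool.Agent.Results.MP_2cf66e_nt.EveryDimension
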