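import Pool.Agent.W_2cf66e_h88.Fin88

/-!
# MP_2cf66e_nt: volumes in `ℝ^m` and the positive set of one integer polynomial, same `m`

For `x = Real.exp 1` the predicate `IsPeriod x` is exactly the frozen statement of the problem.
-/

set_option autoImplicit false

open MeasureTheory

namespace Pool.Agent.Results.MP_2cf66e_nt.OneInequality

/-- For every `m = n + 1 ≥ 1` and every real number `x > 0` the following are equivalent:
* `x` is the volume of a semialgebraic subset of `ℝ^m`;
* `x` is the volume of a compact semialgebraic subset of `ℝ^m`;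
* `x` is the volume of a bounded set `{u ∈ ℝ^m | 0 < f u}`, `f` ONE polynomial with integer
  coefficients;
* the same with `f u` the determinant of a square matrix each of whose entries is `0`, `1` or one
  of `u_1, ..., u_m`;
* there is one homogeneous polynomial `F(t, z_1, ..., z_m)` with integer coefficients such that,
  for all integers `T ≥ 1`, the integer points `z` with `0 < F(T, z)` satisfy `|z_i| ≤ K T` and
  their number differs from `x T ^ m` by at most `K T ^ (m - 1)`.

For every `m = n + 1 ≥ 1` and every real number `x` the following are equivalent: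
* `x` is a difference of volumes of semialgebraic subsets of `ℝ^m`;
* `x` is the volume of a bounded set `{u ∈ ℝ^m | 0 < f u}` minus a natural number;
* `x` is a natural number times the integral over `[0,1]^m` of the sign of one polynomial in `m`
  variables with integer coefficients.

A real number `x > 0` is a period if and only if it is the volume of a semialgebraic subset of
`ℝ^m` for some `m ≥ 1`. Every real number `x` is a period if and only if it is an integer plus the
volume of `{u ∈ [0,1]^k | 0 < f u}`, `f` one polynomial with integer coefficients, and if and only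
if the same holds with a determinant as above.

Here `IsSA S` means that `S` is a finite Boolean combination of sets `{p > 0}`, where `p` is a
polynomial with rational coefficients. -/
theorem result :
    (∀ (n : ℕ) (x : ℝ), 0 < x → List.TFAE [
      ∃ S : Set (Fin (n + 1) → ℝ), Pool.Agent.CVol.IsSA S ∧ volume S = ENNReal.ofReal x,
      ∃ S : Set (Fin (n + 1) → ℝ), Pool.Agent.CVol.IsSA S ∧ IsCompact S ∧
        volume S = ENNReal.ofReal x,
      ∃ f : MvPolynomial (Fin (n + 1)) ℤ,
        Bornology.IsBounded {u : Fin (n + 1) → ℝ | 0 < (MvPolynomial.aeval u f : ℝ)} ∧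
        volume {u : Fin (n + 1) → ℝ | 0 < (MvPolynomial.aeval u f : ℝ)} = ENNReal.ofReal x,
      ∃ (N : ℕ) (c : Fin N → Fin N → Fin (n + 3)),
        Bornology.IsBounded {u : Fin (n + 1) → ℝ | 0 < (Pool.Agent.OneIneq.mat c u).det} ∧
        volume {u : Fin (n + 1) → ℝ | 0 < (Pool.Agent.OneIneq.mat c u).det} = ENNReal.ofReal x,
      ∃ (d K : ℕ) (F : MvPolynomial (Fin (n + 2)) ℤ), F.IsHomogeneous d ∧
        ∀ T : ℕ, 0 < T →
          (∀ z : Fin (n + 1) → ℤ,
            0 < MvPolynomial.eval (Fin.cons (T : ℤ) z : Fin (n + 2) → ℤ) F →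
              ∀ i, |z i| ≤ K * T) ∧
          |({z : Fin (n + 1) → ℤ |
              0 < MvPolynomial.eval (Fin.cons (T : ℤ) z : Fin (n + 2) → ℤ) F}.ncard : ℝ) -
            x * (T : ℝ) ^ (n + 1)| ≤ K * (T : ℝ) ^ n]) ∧
    (∀ (n : ℕ) (x : ℝ), List.TFAE [
      ∃ S T : Set (Fin (n + 1) → ℝ), Pool.Agent.CVol.IsSA S ∧ Pool.Agent.CVol.IsSA T ∧
        volume S ≠ ⊤ ∧ volume T ≠ ⊤ ∧ x = (volume S).toReal - (volume T).toReal,
      ∃ (N : ℕ) (f : MvPolynomial (Fin (n + 1)) ℤ),
        Bornology.IsBounded {u : Fin (n + 1) → ℝ | 0 < (MvPolynomial.aeval u f : ℝ)} ∧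
        x = (volume {u : Fin (n + 1) → ℝ | 0 < (MvPolynomial.aeval u f : ℝ)}).toReal - N,
      ∃ (M : ℕ) (f : MvPolynomial (Fin (n + 1)) ℤ),
        x = M * ∫ u in {u : Fin (n + 1) → ℝ | ∀ i, 0 ≤ u i ∧ u i ≤ 1},
          (SignType.sign (MvPolynomial.aeval u f : ℝ) : ℝ)]) ∧
    (∀ x : ℝ, 0 < x → (Pool.Agent.CVol.IsPeriod x ↔ ∃ (n : ℕ) (S : Set (Fin (n + 1) → ℝ)),
      Pool.Agent.CVol.IsSA S ∧ volume S = ENNReal.ofReal x)) ∧
    (∀ x : ℝ, List.TFAE [
      Pool.Agent.CVol.IsPeriod x,
      ∃ (a : ℤ) (k : ℕ) (f : MvPolynomial (Fin k) ℤ),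
        x = a + (volume {u : Fin k → ℝ | (∀ i, 0 ≤ u i ∧ u i ≤ 1) ∧
          0 < (MvPolynomial.aeval u f : ℝ)}).toReal,
      ∃ (a : ℤ) (k N : ℕ) (c : Fin N → Fin N → Fin (k + 2)),
        x = a + (volume {u : Fin k → ℝ | (∀ i, 0 ≤ u i ∧ u i ≤ 1) ∧
          0 < (Pool.Agent.OneIneq.mat c u).det}).toReal]) :=
  ⟨fun n _ hx => Pool.Agent.WSP.same_dim88 n hx, Pool.Agent.WSP.real_tfae88,
    fun _ hx => Pool.Agent.WSP.period_dim88 hx, Pool.Agent.OneIneq.main_real⟩

end Pool.Agent.Results.MP_2cf66e_nt.OneInequality
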