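import Pool.Agent.W_2cf66e_h3.Main3

/-!
# MP_2cf66e_nt: periods and the positive set of one integer polynomial

For `x = Real.exp 1` the predicate `IsPeriod x` is exactly the frozen statement of the problem.
-/

set_option autoImplicit false

open MeasureTheory

namespace Pool.Agent.Results.MP_2cf66e_nt.OneInequality

/-- For a real number `x > 0` the following are equivalent:
* `x` is a period;
* `x` is the volume of a bounded set `{u ∈ ℝ^n | 0 < f u}`, `f` one polynomial with integer
  coefficients;
* the same with `f u` the determinant of a square matrix each of whose entries is `0`, `1` or one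
  of `u_1, ..., u_n`;
* there is one homogeneous polynomial `F(t, z_1, ..., z_n)` with integer coefficients such that,
  for all integers `T ≥ 1`, the integer points `z` with `0 < F(T, z)` satisfy `|z_i| ≤ K T` and
  their number differs from `x T ^ n` by at most `K T ^ (n - 1)`.

For every real number `x` the following are equivalent: `x` is a period; `x` is an integer plus
the volume of `{u ∈ [0,1]^n | 0 < f u}`, `f` one polynomial with integer coefficients; the same
with a determinant as above. -/
theorem result :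
    (∀ x : ℝ, 0 < x → List.TFAE [
      Pool.Agent.CVol.IsPeriod x,
      ∃ (n : ℕ) (f : MvPolynomial (Fin n) ℤ),
        Bornology.IsBounded {u : Fin n → ℝ | 0 < (MvPolynomial.aeval u f : ℝ)} ∧
        volume {u : Fin n → ℝ | 0 < (MvPolynomial.aeval u f : ℝ)} = ENNReal.ofReal x,
      ∃ (n N : ℕ) (c : Fin N → Fin N → Fin (n + 2)),
        Bornology.IsBounded {u : Fin n → ℝ | 0 < (Pool.Agent.OneIneq.mat c u).det} ∧
        volume {u : Fin n → ℝ | 0 < (Pool.Agent.OneIneq.mat c u).det} = ENNReal.ofReal x,
      ∃ (n d K : ℕ) (F : MvPolynomial (Fin (n + 1)) ℤ), F.IsHomogeneous d ∧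
        ∀ T : ℕ, 0 < T →
          (∀ z : Fin n → ℤ,
            0 < MvPolynomial.eval (Fin.cons (T : ℤ) z : Fin (n + 1) → ℤ) F →
              ∀ i, |z i| ≤ K * T) ∧
          |({z : Fin n → ℤ |
              0 < MvPolynomial.eval (Fin.cons (T : ℤ) z : Fin (n + 1) → ℤ) F}.ncard : ℝ) -
            x * (T : ℝ) ^ n| * T ≤ K * (T : ℝ) ^ n]) ∧
    (∀ x : ℝ, List.TFAE [
      Pool.Agent.CVol.IsPeriod x,
      ∃ (a : ℤ) (n : ℕ) (f : MvPolynomial (Fin n) ℤ),
        x = a + (volume {u : Fin n → ℝ | (∀ i, 0 ≤ u i ∧ u i ≤ 1) ∧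
          0 < (MvPolynomial.aeval u f : ℝ)}).toReal,
      ∃ (a : ℤ) (n N : ℕ) (c : Fin N → Fin N → Fin (n + 2)),
        x = a + (volume {u : Fin n → ℝ | (∀ i, 0 ≤ u i ∧ u i ≤ 1) ∧
          0 < (Pool.Agent.OneIneq.mat c u).det}).toReal]) :=
  ⟨Pool.Agent.OneIneq.main_pos, Pool.Agent.OneIneq.main_real⟩

end Pool.Agent.Results.MP_2cf66e_nt.OneInequality
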