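import Pool.Agent.W_2cf66e_h46.QK

/-!
# MP_2cf66e_nt: positive periods are the volumes of compact sets given by quadratic inequalities

For `x = Real.exp 1` the left side is exactly the frozen statement of the problem.
-/

set_option autoImplicit false

open MeasureTheory

namespace Pool.Agent.Results.MP_2cf66e_nt.QuadraticVolumes

/-- A positive real number is a period if and only if it is the volume of a compact set
`{z | q_1(z) ≥ 0, ..., q_m(z) ≥ 0}` in some `ℝ^N`, where every `q_i` is an affine polynomial with
rational coefficients, or such a polynomial plus a rational multiple of one product of two distinct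
coordinates. -/
theorem result (x : ℝ) (hx : 0 < x) : Pool.Agent.CVol.IsPeriod x ↔
    ∃ (N m : ℕ) (q : Fin m → MvPolynomial (Fin N) ℚ), (∀ i, Pool.Agent.QVol.IsQI (q i)) ∧
      IsCompact {z : Fin N → ℝ | ∀ i, 0 ≤ (MvPolynomial.aeval z (q i) : ℝ)} ∧
      volume {z : Fin N → ℝ | ∀ i, 0 ≤ (MvPolynomial.aeval z (q i) : ℝ)} = ENNReal.ofReal x :=
  Pool.Agent.QVol.period_iff_quad x hx

end Pool.Agent.Results.MP_2cf66e_nt.QuadraticVolumes
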