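import Pool.Agent.W_2cf66e_h23.Back

/-!
# MP_2cf66e_nt: periods are `1/π` times integrals of rational functions over whole spaces

For `x = Real.exp 1` the predicate `IsPeriod x` is exactly the frozen statement of the problem.
-/

set_option autoImplicit false

open MeasureTheory

namespace Pool.Agent.Results.MP_2cf66e_nt.WholeSpace

/-- For every real number `x` the following are equivalent:
* `x` is a period;
* `π x` is the integral of a rational function `P / Q` over the whole of some `ℝ^(n+1)`, absolutely
  convergent, with `P`, `Q` polynomials with rational coefficients and `Q > 0` on `ℝ^(n+1)`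
  (no domain of integration and no poles);
* the same without any condition on the denominator `Q`. -/
theorem result (x : ℝ) : List.TFAE [
    Pool.Agent.CVol.IsPeriod x,
    ∃ (n : ℕ) (P Q : MvPolynomial (Fin (n + 1)) ℚ),
      (∀ z : Fin (n + 1) → ℝ, (0 : ℝ) < MvPolynomial.aeval z Q) ∧
      Integrable (fun z : Fin (n + 1) → ℝ =>
        (MvPolynomial.aeval z P : ℝ) / MvPolynomial.aeval z Q) volume ∧
      (∫ z : Fin (n + 1) → ℝ, (MvPolynomial.aeval z P : ℝ) / MvPolynomial.aeval z Q) =
        Real.pi * x,
    ∃ (n : ℕ) (P Q : MvPolynomial (Fin (n + 1)) ℚ),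
      Integrable (fun z : Fin (n + 1) → ℝ =>
        (MvPolynomial.aeval z P : ℝ) / MvPolynomial.aeval z Q) volume ∧
      (∫ z : Fin (n + 1) → ℝ, (MvPolynomial.aeval z P : ℝ) / MvPolynomial.aeval z Q) =
        Real.pi * x] := by
  tfae_have 1 → 2 := fun h => Pool.Agent.WSP.fwd h
  tfae_have 2 → 3 := by
    rintro ⟨n, P, Q, -, hi, hv⟩
    exact ⟨n, P, Q, hi, hv⟩
  tfae_have 3 → 1 := by
    rintro ⟨n, P, Q, hi, hv⟩
    have h := Pool.Agent.WSP.back P Q hi
    rw [hv, ← mul_assoc, inv_mul_cancel₀ Real.pi_pos.ne', one_mul] at h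
    exact h
  tfae_finish

end Pool.Agent.Results.MP_2cf66e_nt.WholeSpace
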